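import Pool.Agent.R818.Functors.OnePre

/-!
# Preservation of finite preimages implies preservation of preimages
-/

namespace Pool.Agent.Results.MP_6bfe6b_gt.FinitePreimages

open Pool.Agent.R818.Functors

theorem result : ∀ F : CFun, Monomorphic F → PreservesFinitePreimages F → PreservesPreimages F :=
  fun _ hF h => preserves_of_finite hF h

end Pool.Agent.Results.MP_6bfe6b_gt.FinitePreimages
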