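import Pool.Agent.R818.Functors.HyperMain

/-!
# Preservation of finite 1-preimages does not imply preservation of 1-preimages

The functor is the quotient of `X × X × exp X` in which `(x, y, A)` does not depend on `x, y` if `A`
is a singleton, and `(x, x, A)` does not depend on `x` if `A` is connected.
-/

namespace Pool.Agent.Results.MP_6bfe6b_gt.OnePreimages

open Pool.Agent.R818.Functors

theorem result : ∃ F : CFun, Monomorphic F ∧ Epimorphic F ∧ CommutesWithLimits F ∧
    PreservesFiniteOnePreimages F ∧ ¬ PreservesOnePreimages F :=
  ⟨Hyper.F, Hyper.mono, Hyper.epi, Hyper.lim, Hyper.finite_one_preimages,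
    Hyper.not_one_preimages⟩

end Pool.Agent.Results.MP_6bfe6b_gt.OnePreimages
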